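import Mathlib
import Pool.Agent.Y546.WQ.Stm

set_option autoImplicit false

/-!
# Project WQ: descent of ideal `p`-th powers from the compositum to the cyclotomic field
-/

namespace Pool.Agent.Y686.WQ

open NumberField IsDedekindDomain
open Pool.Agent.Y546.WQ

section fields

variable (C : Type) [Field C] [NumberField C] (K : Type) [Field K] [NumberField K]

/-- the compositum -/
theorem exists_comp (hK : Module.finrank ℚ K = 2) :
    ∃ (L : Type) (_ : Field L) (_ : NumberField L) (_ : Algebra C L) (_ : K →+* L),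
      Module.finrank C L ≤ 2 := by
  obtain ⟨θ, hθ⟩ := Field.exists_primitive_element ℚ K
  let j : K →ₐ[ℚ] AlgebraicClosure C := IsAlgClosed.lift
  have hint : IsIntegral ℚ θ := Algebra.IsIntegral.isIntegral θ
  have hintC : IsIntegral C (j θ) := Algebra.IsIntegral.isIntegral _
  let L := IntermediateField.adjoin C {j θ}
  have hfin : FiniteDimensional C L := IntermediateField.adjoin.finiteDimensional hintC
  have hchar : CharZero L := charZero_of_injective_algebraMap (algebraMap C L).injective
  have hfd : FiniteDimensional ℚ L := FiniteDimensional.trans ℚ C L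
  have hnf : NumberField L := NumberField.mk
  have hmem : ∀ x : K, j x ∈ L := by
    intro x
    have hx : x ∈ IntermediateField.adjoin ℚ {θ} := by
      rw [hθ]
      trivial
    induction hx using IntermediateField.adjoin_induction with
    | mem y hy =>
      rw [Set.mem_singleton_iff.1 hy]
      exact IntermediateField.mem_adjoin_simple_self C (j θ)
    | algebraMap y =>
      rw [AlgHom.commutes]
      have h : (algebraMap ℚ (AlgebraicClosure C)) y = algebraMap C _ (algebraMap ℚ C y) := by
        simp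
      rw [h]
      exact L.algebraMap_mem _
    | add x y _ _ h1 h2 => rw [map_add]; exact add_mem h1 h2
    | inv x _ h => rw [map_inv₀]; exact inv_mem h
    | mul x y _ _ h1 h2 => rw [map_mul]; exact mul_mem h1 h2
  refine ⟨L, inferInstance, hnf, inferInstance,
    RingHom.codRestrict (j : K →+* AlgebraicClosure C) L.toSubfield hmem, ?_⟩
  rw [IntermediateField.adjoin.finrank hintC]
  have h1 : minpoly C (j θ) ∣ (minpoly ℚ θ).map (algebraMap ℚ C) := by
    apply minpoly.dvd
    rw [Polynomial.aeval_map_algebraMap, Polynomial.aeval_algHom_apply, minpoly.aeval, map_zero]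
  have h2 : (minpoly ℚ θ).map (algebraMap ℚ C) ≠ 0 :=
    (Polynomial.map_ne_zero_iff (algebraMap ℚ C).injective).2 (minpoly.ne_zero hint)
  have h3 := Polynomial.natDegree_le_of_dvd h1 h2
  rw [Polynomial.natDegree_map] at h3
  exact h3.trans ((minpoly.natDegree_le θ).trans hK.le)

end fields

section ideals

variable {L : Type} [Field L] [NumberField L]

open Classical in
/-- the multiplicities of a prime in an identity of ideals -/
theorem count_eq (w : HeightOneSpectrum (𝓞 L)) (p : ℕ) {U V : 𝓞 L} (hU : U ≠ 0) (hV : V ≠ 0)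
    {A B : Ideal (𝓞 L)} (hA : A ≠ ⊥) (hB : B ≠ ⊥)
    (h : Ideal.span {U} * B ^ p = Ideal.span {V} * A ^ p) :
    ∃ k : ℤ, ∃ a b : ℤ, w.valuation L (U : L) = WithZero.exp (-a) ∧
      w.valuation L (V : L) = WithZero.exp (-b) ∧ a - b = p * k := by
  have hirr : Irreducible (Associates.mk w.asIdeal) := w.associates_irreducible
  have h1 : Associates.mk (Ideal.span {U}) * Associates.mk B ^ p =
      Associates.mk (Ideal.span {V}) * Associates.mk A ^ p := by
    rw [← Associates.mk_pow, ← Associates.mk_pow, Associates.mk_mul_mk, Associates.mk_mul_mk, h]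
  have nU : Associates.mk (Ideal.span {U}) ≠ 0 := by
    rw [Associates.mk_ne_zero]
    intro h0
    exact hU (Ideal.span_singleton_eq_bot.1 h0)
  have nV : Associates.mk (Ideal.span {V}) ≠ 0 := by
    rw [Associates.mk_ne_zero]
    intro h0
    exact hV (Ideal.span_singleton_eq_bot.1 h0)
  have nA : Associates.mk A ≠ 0 := Associates.mk_ne_zero.2 hA
  have nB : Associates.mk B ≠ 0 := Associates.mk_ne_zero.2 hB
  have h2 := congrArg (fun t => (Associates.mk w.asIdeal).count t.factors) h1
  simp only [Associates.count_mul nU (pow_ne_zero p nB) hirr,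
    Associates.count_mul nV (pow_ne_zero p nA) hirr, Associates.count_pow nB hirr,
    Associates.count_pow nA hirr] at h2
  refine ⟨((Associates.mk w.asIdeal).count (Associates.mk A).factors : ℤ) -
    (Associates.mk w.asIdeal).count (Associates.mk B).factors,
    (Associates.mk w.asIdeal).count (Associates.mk (Ideal.span {U})).factors,
    (Associates.mk w.asIdeal).count (Associates.mk (Ideal.span {V})).factors, ?_, ?_, ?_⟩
  · rw [HeightOneSpectrum.valuation_of_algebraMap, HeightOneSpectrum.intValuation_if_neg w hU]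
  · rw [HeightOneSpectrum.valuation_of_algebraMap, HeightOneSpectrum.intValuation_if_neg w hV]
  · have h3 : (((Associates.mk w.asIdeal).count (Associates.mk (Ideal.span {U})).factors +
        p * (Associates.mk w.asIdeal).count (Associates.mk B).factors : ℕ) : ℤ) =
        (((Associates.mk w.asIdeal).count (Associates.mk (Ideal.span {V})).factors +
        p * (Associates.mk w.asIdeal).count (Associates.mk A).factors : ℕ) : ℤ) := by
      exact_mod_cast h2
    push_cast at h3
    linarith

end ideals

section descent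

variable {C : Type} [Field C] [NumberField C] {L : Type} [Field L] [NumberField L] [Algebra C L]

/-- a prime above a given one, with small ramification index -/
theorem exists_above (P : HeightOneSpectrum (𝓞 C)) :
    ∃ (w : HeightOneSpectrum (𝓞 L)) (e : ℕ), 0 < e ∧ e ≤ Module.finrank C L ∧
      ∀ x : C, w.valuation L (algebraMap C L x) = P.valuation C x ^ e := by
  obtain ⟨Q, -, hQ, hQP⟩ := Ideal.exists_ideal_over_prime_of_isIntegral (S := 𝓞 L) P.asIdeal ⊥
    (by
      rw [← RingHom.ker_eq_comap_bot,
        (RingHom.injective_iff_ker_eq_bot _).1 (FaithfulSMul.algebraMap_injective (𝓞 C) (𝓞 L))]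
      exact bot_le)
  have hQ0 : Q ≠ ⊥ := by
    intro h
    apply P.ne_bot
    rw [← hQP, h]
    exact Ideal.comap_bot_of_injective _ (FaithfulSMul.algebraMap_injective (𝓞 C) (𝓞 L))
  let w : HeightOneSpectrum (𝓞 L) := ⟨Q, hQ, hQ0⟩
  have hover : w.asIdeal.LiesOver P.asIdeal := ⟨hQP.symm⟩
  have hmax : P.asIdeal.IsMaximal := P.isMaximal
  have hnz : NoZeroSMulDivisors (𝓞 C) (𝓞 L) := ⟨fun {r x} h => smul_eq_zero.1 h⟩
  have hval := fun x : C => HeightOneSpectrum.valuation_liesOver (K := C) L P w x
  refine ⟨w, P.asIdeal.ramificationIdx' w.asIdeal, ?_,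
    Ideal.ramificationIdx_le_finrank (𝓞 L) C L w.asIdeal, fun x => (hval x).symm⟩
  rw [Nat.pos_iff_ne_zero]
  intro h0
  obtain ⟨x, hx, hx0⟩ := Submodule.exists_mem_ne_zero_of_ne_bot P.ne_bot
  have h1 := hval (x : C)
  rw [h0, pow_zero] at h1
  have h2 : algebraMap C L (x : C) = ((algebraMap (𝓞 C) (𝓞 L) x : 𝓞 L) : L) := by
    rfl
  have h3 : algebraMap (𝓞 C) (𝓞 L) x ∈ w.asIdeal := by
    have : x ∈ Ideal.comap (algebraMap (𝓞 C) (𝓞 L)) Q := by rw [hQP]; exact hx
    exact this
  have h4 := (w.valuation_lt_one_iff_mem (K := L) (algebraMap (𝓞 C) (𝓞 L) x)).2 h3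
  rw [h2] at h1
  exact absurd h1.symm h4.ne

end descent

/-- **DOWN** -/
theorem main : S_DOWN := by
  intro p hp hp3 C _ _ c K _ _ hK
  obtain ⟨L, iF, iN, iA, j, hL⟩ := exists_comp C K hK
  refine ⟨L, iF, iN, algebraMap C L, j, ?_⟩
  intro u v hu hv U V hU hV A B hA hB h P
  obtain ⟨w, e, he0, he, hw⟩ := exists_above (L := L) P
  have hU0 : U ≠ 0 := by
    rintro rfl
    apply hu
    have : algebraMap C L u = 0 := by rw [← hU]; simp
    simpa using this
  have hV0 : V ≠ 0 := by
    rintro rfl
    apply hv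
    have : algebraMap C L v = 0 := by rw [← hV]; simp
    simpa using this
  obtain ⟨k, a, b, ha, hb, hab⟩ := count_eq w p hU0 hV0 hA hB h
  rw [hU, hw] at ha
  rw [hV, hw] at hb
  have nu : P.valuation C u ≠ 0 := (Valuation.ne_zero_iff _).2 hu
  have nv : P.valuation C v ≠ 0 := (Valuation.ne_zero_iff _).2 hv
  obtain ⟨x, hx⟩ : ∃ x : ℤ, P.valuation C u = WithZero.exp x :=
    ⟨WithZero.log (P.valuation C u), (WithZero.exp_log nu).symm⟩
  obtain ⟨y, hy⟩ : ∃ y : ℤ, P.valuation C v = WithZero.exp y :=
    ⟨WithZero.log (P.valuation C v), (WithZero.exp_log nv).symm⟩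
  rw [hx, ← WithZero.exp_nsmul, WithZero.exp_inj] at ha
  rw [hy, ← WithZero.exp_nsmul, WithZero.exp_inj] at hb
  have h1 : (e : ℤ) * (y - x) = p * k := by
    have h2 : (e : ℤ) * x = -a := by simpa using ha
    have h3 : (e : ℤ) * y = -b := by simpa using hb
    rw [mul_sub, h2, h3, ← hab]
    ring
  have hpp : Prime (p : ℤ) := Nat.prime_iff_prime_int.1 hp.out
  have h2 : (p : ℤ) ∣ e * (y - x) := ⟨k, h1⟩
  have h3 : (p : ℤ) ∣ y - x := by
    rcases hpp.dvd_or_dvd h2 with h4 | h4
    · exfalso
      have h5 := Nat.le_of_dvd he0 (Int.natCast_dvd_natCast.1 h4)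
      omega
    · exact h4
  obtain ⟨m, hm⟩ := h3
  refine ⟨-m, ?_⟩
  rw [hx, hy, ← WithZero.exp_add]
  congr 1
  linarith

end Pool.Agent.Y686.WQ
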